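import Pool.Agent.Helper60.TGX.Main

/-!
# MP_a41896_nt: Vojta's conjecture (`D = 0`) for ALL varieties birational to an abelian variety isogenous to a
product of elliptic curves

Let `K` be a number field, `A` an abelian variety over `K` which is isogenous (over an extension of `K`) to a product
of elliptic curves, and `X` a smooth projective variety over `K` which is birational to `A`.  The birational map
extends to a morphism `X → A`, which is an isomorphism outside a closed subset `V` of `A` of codimension `≥ 2` (the
centre), and the canonical divisor `K_X` is effective and supported over `V`.  There is no other condition: the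
dimension, the curves, the ranks, `X` and `V` are arbitrary.  (`X` can also be a smooth proper stack with a morphism
`X → A` which is an isomorphism outside a closed subset `V` of codimension `≥ 2`; the stacky divisors are over `V`.)

The same follows for smooth proper stacks with a finite etale cover by such an `X`, for instance (blow-ups of) quotient
stacks `[A/G]`, `G` a finite group: by the theorem of Chevalley-Weil the integral points lift to the `L`-points of the
cover for one number field `L`.

After a finite extension of `K` there is an isogeny from `A` to a product `∏_(i < n) W_i` of elliptic curves over `K` (the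
new field is the `K` of the theorem, the set `X` of the theorem can be the set of the points over the old one).  The
preimage of the image of `V` under the isogeny contains `V` and has the same dimension.  Any product of elliptic curves is
allowed in the theorem: isogenous or equal curves, with or without complex multiplication.

The image of `V` in `(ℙ¹)^n` under the `x`-coordinates is a closed subset of the same dimension, so it is the set of
common zeros of multihomogeneous polynomials of degree `(D, ..., D)`.  They are given here by the corresponding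
polynomials `f_j` in the `x`-coordinates.

* `CodimTwo D f`: the common zeros in `(ℙ¹)^n` have codimension `≥ 2`: over every extension field `Ω` of `K`
  the coordinates of a common zero are algebraic over a field `K(S)`, `|S| + 2 ≤ n`;
* `π : X → ∏_i Γ_i`, `Γ_i` a finitely generated subgroup of `W_i(K)`, for example `W_i(K)` itself, by the Mordell-Weil
  theorem (no condition on the ranks); `X` is a set of points of the variety or of the stack, `π` the map above (in the
  case of a stack with a finite etale cover the lift to the cover is part of `π`);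
* `centreHeight D f x` is the height with respect to the closed subscheme defined by the `f_j`;
  the height of a point with respect to a divisor of `X` which is supported over `V`, such as `K_X(D)` if `D = 0` or
  if `D` is exceptional, is bounded by a multiple of `centreHeight`, up to a constant (`hcan`; the points over `V`
  and those of the support of the divisor are in `Z₀`);
* the truncated counting function `hN` is nonnegative (`hcount`);
* a height `hH` with respect to a big divisor is bounded below by a positive multiple of the height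
  `baseHeight = ∑_i h(x_i)` of the point of `∏_i W_i`, up to a constant, outside a closed subset `Z₀` (`hbig`).

The theorem is Vojta's inequality at ALL `K`-points outside a proper closed subset.  If `X = ∏_i Γ_i`,
`hK = centreHeight`, `hN = 0` and `hH = baseHeight`, it says: if `V` has codimension `≥ 2`, then for every `ε > 0` there
are `Z ≠ 0` and `C` with `centreHeight (x(z)) ≤ ε ∑_i h(x(z_i)) + C` for all `z` in `∏_i Γ_i` with `Z(x(z)) ≠ 0`.
-/

namespace Pool.Agent.Results.MP_a41896_nt.CodimensionTwoCentres

open WeierstrassCurve NumberField Height MvPolynomial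

noncomputable section

variable {K : Type} [Field K]

/-- The `x`-coordinate of a nonsingular `K`-point of a Weierstrass cubic; `0` at the point at
infinity (the origin of the group). -/
def xCoord {W : Affine K} : W.Point → K
  | .zero => 0
  | .some x _ _ => x

/-- The sum of `f` over all places of the number field `K`, the archimedean ones being counted with
their local degrees. -/
def sumPlaces [NumberField K] (f : AbsoluteValue K ℝ → ℝ) : ℝ :=
  ∑ v : InfinitePlace K, (v.mult : ℝ) * f v.val + ∑ᶠ v : FinitePlace K, f v.val

/-- The value at `y = ((X_i : Z_i))_i` of the multihomogeneous polynomial of degree `(D, ..., D)` given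
by `f`: `Σ_m f_m ∏_i X_i^(m_i) Z_i^(D - m_i)`. -/
def homValue {σ Ω : Type} [Fintype σ] [Field Ω] [Algebra K Ω] (D : ℕ) (f : MvPolynomial σ K)
    (y : σ → Fin 2 → Ω) : Ω :=
  ∑ m ∈ f.support, algebraMap K Ω (coeff m f) * ∏ i, (y i 0 ^ m i * y i 1 ^ (D - m i))

/-- The set of common zeros in `(ℙ¹)^σ` of the multihomogeneous polynomials of degree `(D, ..., D)` given
by the `f_j` has codimension `≥ 2` (every set of points of `ℙ¹` over `Ω` is represented by pairs
`(x, 1)` or `(1, 0)`). -/
def CodimTwo {σ ι : Type} [Fintype σ] (D : ℕ) (f : ι → MvPolynomial σ K) : Prop :=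
  ∀ (Ω : Type) [Field Ω] [Algebra K Ω] (y : σ → Fin 2 → Ω), (∀ i, y i 1 = 1 ∨ y i = ![1, 0]) →
    (∀ j, homValue D (f j) y = 0) → ∃ S : Finset Ω, S.card + 2 ≤ Fintype.card σ ∧
      ∀ i, IsAlgebraic (IntermediateField.adjoin K (S : Set Ω)) (y i 0)

/-- `Σ_v log⁺ (∏_i max(1,|x_i|_v)^D / max_j |f_j(x)|_v)`: the height of the point with the
`x`-coordinates `x_i` with respect to the closed subscheme defined by the `f_j`. -/
def centreHeight [NumberField K] {σ ι : Type} [Fintype σ] (D : ℕ) (f : ι → MvPolynomial σ K)
    (x : σ → K) : ℝ :=
  sumPlaces fun v => Real.posLog ((∏ i, max 1 (v (x i))) ^ D / ⨆ j, v (eval x (f j)))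

/-- `Σ_i h(x_i)` -/
def baseHeight [NumberField K] {σ : Type} [Fintype σ] (x : σ → K) : ℝ := ∑ i, logHeight₁ (x i)

/-- The `x`-coordinates of a point of `∏_i W_i`. -/
def xCoords {n : ℕ} {W : Fin n → Affine K} (z : ∀ i, (W i).Point) (i : Fin n) : K := xCoord (z i)

theorem xCoord_eq {W : Affine K} (P : W.Point) : xCoord P = Pool.Agent.Helper29.BL.xc P := by
  cases P <;> rfl

theorem sumPlaces_eq [NumberField K] (f : AbsoluteValue K ℝ → ℝ) :
    sumPlaces f = Pool.Agent.Helper29.BL.PS f := by
  unfold sumPlaces Pool.Agent.Helper29.BL.PS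
  rw [NumberField.sum_archAbsVal_eq, NumberField.sum_nonarchAbsVal_eq]
  simp

theorem centreHeight_eq [NumberField K] {σ ι : Type} [Fintype σ] (D : ℕ)
    (f : ι → MvPolynomial σ K) (x : σ → K) : centreHeight D f x = Pool.Agent.Helper5.UN.cH D f x := by
  unfold centreHeight Pool.Agent.Helper5.UN.cH
  rw [sumPlaces_eq]
  rfl

theorem centreHeight_nonneg [NumberField K] {σ ι : Type} [Fintype σ] (D : ℕ)
    (f : ι → MvPolynomial σ K) (x : σ → K) : 0 ≤ centreHeight D f x := by
  unfold centreHeight sumPlaces
  refine add_nonneg (Finset.sum_nonneg fun v _ => mul_nonneg (Nat.cast_nonneg _)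
    Real.posLog_nonneg) (finsum_nonneg fun v => Real.posLog_nonneg)

theorem baseHeight_nonneg [NumberField K] {σ : Type} [Fintype σ] (x : σ → K) :
    0 ≤ baseHeight x := Finset.sum_nonneg fun _ _ => zero_le_logHeight₁ _

/-- the theorem for the centre height -/
theorem two (K : Type) [Field K] [NumberField K] [DecidableEq K] (n : ℕ)
    (W : Fin n → Affine K) (hW : ∀ i, (W i).IsElliptic) :
    Pool.Agent.Helper19.TN.MAINW K (Fin n) W :=
  Pool.Agent.Helper60.TGX.th_TGX K (Fin n) W hW

/-- **Vojta's conjecture (`D = 0`) for all varieties birational to an abelian variety isogenous to a product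
of elliptic curves**: all dimensions, all centres, all `K`-points outside a proper closed subset. -/
theorem result (K : Type) [Field K] [NumberField K] [DecidableEq K] (n : ℕ)
    (W : Fin n → Affine K) (hW : ∀ i, (W i).IsElliptic)
    (Γ : ∀ i, AddSubgroup (W i).Point) (hΓ : ∀ i, (Γ i).FG) (ι : Type) [Fintype ι] (D : ℕ)
    (f : ι → MvPolynomial (Fin n) K) (hdeg : ∀ j i, degreeOf i (f j) ≤ D) (hcodim : CodimTwo D f)
    (X : Type) (π : X → ∀ i, (W i).Point) (hπ : ∀ z i, π z i ∈ Γ i) (hK hN hH : X → ℝ)
    (c₀ C₀ : ℝ) (hc₀ : 0 < c₀) (Z₀ : Set X) (hcount : ∀ z, 0 ≤ hN z)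
    (hcan : ∀ z, z ∉ Z₀ → (∀ i, π z i ≠ 0) →
      hK z ≤ C₀ * centreHeight D f (xCoords (π z)) + C₀)
    (hbig : ∀ z, z ∉ Z₀ → (∀ i, π z i ≠ 0) → c₀ * baseHeight (xCoords (π z)) - C₀ ≤ hH z)
    (δ : ℝ) (hδ : 0 < δ) :
    ∃ (Z : MvPolynomial (Fin n) K) (C : ℝ), Z ≠ 0 ∧ ∀ z, z ∉ Z₀ → (∀ i, π z i ≠ 0) →
      eval (xCoords (π z)) Z ≠ 0 → hN z ≥ hK z - δ * hH z - C := by
  set C₁ := max C₀ 1 with hC₁
  have hC₁1 : 1 ≤ C₁ := le_max_right _ _
  have hC₁0 : C₀ ≤ C₁ := le_max_left _ _
  have hcodim' : Pool.Agent.Helper5.UN.CodimGT D f 1 := by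
    intro Ω _ _ y hy hz
    obtain ⟨S, hS, h⟩ := hcodim Ω y hy hz
    exact ⟨S, by omega, h⟩
  set η : ℝ := δ * c₀ / C₁ with hη
  have hη0 : 0 < η := by positivity
  obtain ⟨Z, C, hZ, hC, h'⟩ := two K n W hW Γ hΓ D ι f hdeg hcodim' η hη0
  refine ⟨Z, C₁ * C + C₁ + δ * C₁, hZ, fun z hz0 hz hzZ => ?_⟩
  have h7 := hcan z hz0 hz
  have h8 := hbig z hz0 hz
  have h9 := hcount z
  have hxe : xCoords (π z) = Pool.Agent.Helper60.HC.xs (π z) :=
    funext fun i => xCoord_eq _
  have hb : baseHeight (xCoords (π z)) = ∑ i, Pool.Agent.Helper29.BL.hx (π z i) := by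
    rw [hxe]
    rfl
  rw [hxe] at hzZ
  have h12 := h' (π z) (hπ z) hz hzZ
  rw [← hxe, ← centreHeight_eq, ← hb] at h12
  have h10 := centreHeight_nonneg D f (xCoords (π z))
  have h13 : C₀ * centreHeight D f (xCoords (π z)) ≤ C₁ * centreHeight D f (xCoords (π z)) :=
    mul_le_mul_of_nonneg_right hC₁0 h10
  have h14 : C₁ * centreHeight D f (xCoords (π z)) ≤
      δ * (c₀ * baseHeight (xCoords (π z))) + C₁ * C := by
    have := mul_le_mul_of_nonneg_left h12 (by positivity : (0 : ℝ) ≤ C₁)
    have e : C₁ * (η * baseHeight (xCoords (π z)) + C) =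
        δ * (c₀ * baseHeight (xCoords (π z))) + C₁ * C := by
      rw [hη]
      field_simp
    rw [e] at this
    exact this
  have h15 : δ * (c₀ * baseHeight (xCoords (π z)) - C₀) ≤ δ * hH z :=
    mul_le_mul_of_nonneg_left h8 hδ.le
  have h16 : δ * C₀ ≤ δ * C₁ := mul_le_mul_of_nonneg_left hC₁0 hδ.le
  linarith

end

end Pool.Agent.Results.MP_a41896_nt.CodimensionTwoCentres
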