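import Pool.Agent.Helper68.SG2.Main

/-!
# MP_a41896_nt: the gcd conjecture of Silverman for elliptic curves and `G_m`, and Vojta's conjecture for
blow-ups of semiabelian varieties

The factors are elliptic curves over the number field `K` (in Weierstrass form) or the nodal cubic
`y² + xy = x³`, whose group of nonsingular points is the multiplicative group (`x = u/(u-1)²`).

`gcdHeight P P' = Σ_v min(log⁺|x(P)|_v, log⁺|x(P')|_v)` (all places `v` of `K`, with local degrees) is, up to a
bounded function, twice the generalized logarithmic gcd of the points `P`, `P'` of two such groups `E`, `E'`,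
i.e. twice the height of the exceptional divisor of the blow-up of `E × E'` in the origin at the point
`(P, P')`.

(1) Let `A` be an abelian variety isogenous to a product of elliptic curves, `X → A` a composite of blow-ups with
centres over a finite union of translates `T_s` of abelian subvarieties of codimension `≥ 2` (for example any smooth
surface birational to `E × E'`), or a root stack along exceptional divisors, or a weighted blow-up; `D` is `0` or
exceptional, `V = A(K)`, and `φ_s, φ'_s : A → E_s, E'_s` are homomorphisms minus constants which vanish on `T_s`, with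
`(φ_s, φ'_s)` surjective.

(2) More generally, let `A` be a semiabelian variety, `Y` a smooth equivariant compactification (so `K_Y` + boundary
`= 0`; for example a product of elliptic curves and projective lines), `φ_s`, `φ'_s` homomorphisms minus constants
from `A` to elliptic curves or to `G_m` which extend to morphisms from `Y` to elliptic curves or to `P¹`, with
`(φ_s, φ'_s)` surjective, `X → Y` a composite of blow-ups with centres over the union of the sets `φ_s = φ'_s = 0`
(where `0` is the origin of the group, i.e. `u = 1` for `G_m`), `D` the boundary plus exceptional divisors, and let `V`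
be a finitely generated subgroup of `A(K)`, for example one which contains the integral points of `A`.

Then `K_X(D)` is supported over the sets `φ_s = φ'_s = 0`, so its height `hK` is bounded by a multiple of the sum of
the `gcdHeight (φ_s z) (φ'_s z)`, plus a constant (hypothesis `hcan`), an ample height `h` bounds those of the
`φ_s z`, `φ'_s z` (hypothesis `hφ`), the truncated counting function `hN` is nonnegative, and the height `hH` of a big
divisor is bounded below by a positive multiple of `h` outside a closed subset `Z₀` (hypothesis `hbig`).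
The theorem is Vojta's inequality at all points of `V` outside a proper closed subset.

If `ι` is a point, `V = Γ × Γ'`, `φ`, `φ'` the projections, `hK = gcdHeight`, `hN = 0` and `hH = h = xHeight + xHeight`,
then it says: for every `ε > 0` there are `Z ≠ 0` and `C` such that `gcdHeight P P' ≤ ε (h(x(P)) + h(x(P'))) + C`
for all `P ∈ Γ`, `P' ∈ Γ'` with `Z(x(P), x(P')) ≠ 0`.
-/

namespace Pool.Agent.Results.MP_a41896_nt.SemiabelianGcd

open WeierstrassCurve NumberField Height

noncomputable section

variable {K : Type} [Field K]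

/-- The `x`-coordinate of a nonsingular `K`-point of a Weierstrass cubic; `0` at the point at infinity (the
origin of the group). -/
def xCoord {E : Affine K} : E.Point → K
  | .zero => 0
  | .some x _ _ => x

/-- The nodal cubic `y² + xy = x³`. Its group of nonsingular points is the multiplicative group:
`u ≠ 1` corresponds to the point `(u/(u-1)², u/(u-1)³)`, and `u = 1` to the point at infinity. -/
def nodalCubic (K : Type) [Field K] : Affine K := ⟨1, 0, 0, 0, 0⟩

/-- The sum of `f` over all places of the number field `K`, the archimedean ones being counted with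
their local degrees. -/
def sumPlaces [NumberField K] (f : AbsoluteValue K ℝ → ℝ) : ℝ :=
  ∑ v : InfinitePlace K, (v.mult : ℝ) * f v.val + ∑ᶠ v : FinitePlace K, f v.val

/-- `Σ_v min(log⁺|x(P)|_v, log⁺|x(P')|_v)`: twice the logarithmic gcd of `P` and `P'`. -/
def gcdHeight [NumberField K] {E E' : Affine K} (P : E.Point) (P' : E'.Point) : ℝ :=
  sumPlaces fun v => min (Real.posLog (v (xCoord P))) (Real.posLog (v (xCoord P')))

/-- The logarithmic height of the `x`-coordinate. -/
def xHeight [NumberField K] {E : Affine K} (P : E.Point) : ℝ := logHeight₁ (xCoord P)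

/-- The value of the polynomial `Z` at `(x(P), x(P'))`. -/
def evalX {E E' : Affine K} (Z : MvPolynomial (Fin 2) K) (P : E.Point) (P' : E'.Point) : K :=
  MvPolynomial.eval (fun i => if i = 0 then xCoord P else xCoord P') Z

theorem xCoord_eq {E : Affine K} (P : E.Point) : xCoord P = Pool.Agent.Helper29.BL.xc P := by
  cases P <;> rfl

theorem sumPlaces_eq [NumberField K] (f : AbsoluteValue K ℝ → ℝ) :
    sumPlaces f = Pool.Agent.Helper29.BL.PS f := by
  unfold sumPlaces Pool.Agent.Helper29.BL.PS
  rw [NumberField.sum_archAbsVal_eq, NumberField.sum_nonarchAbsVal_eq]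
  simp

theorem gcdHeight_eq [NumberField K] {E E' : Affine K} (P : E.Point) (P' : E'.Point) :
    gcdHeight P P' = Pool.Agent.Helper29.BL.gg (P, P') := by
  unfold gcdHeight Pool.Agent.Helper29.BL.gg Pool.Agent.Helper29.BL.lam
  rw [sumPlaces_eq]
  simp only [xCoord_eq]

theorem xHeight_eq [NumberField K] {E : Affine K} (P : E.Point) :
    xHeight P = Pool.Agent.Helper29.BL.hx P := by
  unfold xHeight Pool.Agent.Helper29.BL.hx
  rw [xCoord_eq]

theorem evalX_eq {E E' : Affine K} (Z : MvPolynomial (Fin 2) K) (P : E.Point) (P' : E'.Point) :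
    evalX Z P P' = MvPolynomial.eval (fun i => if i = 0 then Pool.Agent.Helper29.BL.xc P else
      Pool.Agent.Helper29.BL.xc P') Z := by
  unfold evalX
  simp only [xCoord_eq]

/-- The nonsingular points of the nodal cubic form the multiplicative group (not used in the
statement of `result`; it justifies the description of `nodalCubic`). -/
theorem nodalCubic_points (K : Type) [Field K] [DecidableEq K] :
    ∃ ψ : (nodalCubic K).Point ≃+ Additive Kˣ, ∀ P, P ≠ 0 →
      ((ψ P).toMul : K) ≠ 1 ∧
        xCoord P = ((ψ P).toMul : K) / (((ψ P).toMul : K) - 1) ^ 2 := by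
  obtain ⟨ψ, h⟩ := Pool.Agent.Helper29.BL.th_niso K
  exact ⟨ψ, fun P hP => by rw [xCoord_eq]; exact h P hP⟩

/-- **Vojta's inequality for blow-ups of semiabelian varieties isogenous to products of elliptic curves and
multiplicative groups** (with `ι` a point, `V = Γ × Γ'`, `hK = gcdHeight`, `hN = 0`, `hH = h`: the gcd
conjecture of Silverman for two groups, each an elliptic curve or `G_m`). -/
theorem result (K : Type) [Field K] [NumberField K] [DecidableEq K] (V ι : Type) [Fintype ι]
    (E E' : ι → Affine K) (hE : ∀ s, (E s).IsElliptic ∨ E s = nodalCubic K)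
    (hE' : ∀ s, (E' s).IsElliptic ∨ E' s = nodalCubic K)
    (Γ : ∀ s, AddSubgroup (E s).Point) (Γ' : ∀ s, AddSubgroup (E' s).Point)
    (hΓ : ∀ s, (Γ s).FG) (hΓ' : ∀ s, (Γ' s).FG)
    (φ : ∀ s, V → (E s).Point) (φ' : ∀ s, V → (E' s).Point)
    (hφΓ : ∀ s z, φ s z ∈ Γ s ∧ φ' s z ∈ Γ' s)
    (h hK hN hH : V → ℝ) (c₀ C₀ : ℝ) (Z₀ : Set V) (h0 : ∀ z, 0 ≤ h z)
    (hφ : ∀ s z, xHeight (φ s z) ≤ C₀ * h z + C₀ ∧ xHeight (φ' s z) ≤ C₀ * h z + C₀)
    (hcan : ∀ z, z ∉ Z₀ → (∀ s, φ s z ≠ 0 ∧ φ' s z ≠ 0) →
      hK z ≤ C₀ * ∑ s, gcdHeight (φ s z) (φ' s z) + C₀)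
    (hcount : ∀ z, 0 ≤ hN z) (hc₀ : 0 < c₀) (hbig : ∀ z, z ∉ Z₀ → c₀ * h z - C₀ ≤ hH z)
    (δ : ℝ) (hδ : 0 < δ) :
    ∃ (Z : ι → MvPolynomial (Fin 2) K) (C : ℝ), (∀ s, Z s ≠ 0) ∧ ∀ z, z ∉ Z₀ →
      (∀ s, φ s z ≠ 0 ∧ φ' s z ≠ 0 ∧ evalX (Z s) (φ s z) (φ' s z) ≠ 0) →
      hK z - δ * hH z - C ≤ hN z := by
  obtain ⟨Z, C, hZ, hz⟩ := Pool.Agent.Helper68.SG2.vojtaGT Pool.Agent.Helper68.SG2.th_GCDU K V ι
    E E' hE hE' Γ Γ' hΓ hΓ' φ φ' (fun s z => (hφΓ s z).1) (fun s z => (hφΓ s z).2) h hK hN hH c₀ C₀
    Z₀ h0 (fun s z => by rw [← xHeight_eq, ← xHeight_eq]; exact hφ s z)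
    (fun z hz hz' => by simpa only [gcdHeight_eq] using hcan z hz hz') hcount hc₀ hbig δ hδ
  exact ⟨Z, C, hZ, fun z hz0 hz1 => hz z hz0 fun s => by
    have := hz1 s
    rw [evalX_eq] at this
    exact this⟩

end

end Pool.Agent.Results.MP_a41896_nt.SemiabelianGcd
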