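import Pool.Agent.Helper23.Vojta.WS

/-!
# Vojta's conjecture for integral points of weighted projective stacks: the exceptional set

The exceptional points are at most a power-saving proportion of the integral points of bounded
height, outside a proper Zariski-closed subset. The definitions are in
`Pool/Agent/Helper23/Vojta/Defs.lean`.
-/

set_option autoImplicit false

namespace Pool.Agent.Results.MP_a41896_nt.WeightedStacks

open MvPolynomial Pool.Agent.Helper23.Vojta

open Classical in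
/-- Outside a proper Zariski-closed `Z ⊇ D` (depending on `F` and `G` only), the proportion of the
integral points of height at most `B` at which Vojta's inequality
`N^(1)(D, x) ≥ h_{K_X(D)}(x) - δ h(x) + c` fails is
`O(B ^ -(2 |w| + δ - η - d - ∑ (degrees of the G i not dividing F)))`. -/
theorem result {n : ℕ} (hn : 1 ≤ n) (w : Fin (n + 1) → ℕ) (hw : ∀ i, 1 ≤ w i)
    (S : Finset ℕ) (hS : ∀ p ∈ S, p.Prime)
    (F : MvPolynomial (Fin (n + 1)) ℤ) (hF : F ≠ 0) (d : ℕ) (hFd : IsWeightedHomogeneous w F d)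
    (G : Fin (n + 1) → MvPolynomial (Fin (n + 1)) ℤ) (hGi : AlgebraicIndependent ℤ G)
    (e : Fin (n + 1) → ℕ) (hG : ∀ i, IsWeightedHomogeneous w (G i) (e i)) :
    ∃ (Z : MvPolynomial (Fin (n + 1)) ℤ) (m : ℕ),
      Z ≠ 0 ∧ F ∣ Z ∧ IsWeightedHomogeneous w Z m ∧
      ∀ δ η c : ℝ, 0 < η → (∑ i, w i : ℕ) + δ ≤ d → ∃ C : ℝ, ∀ B : ℝ, 1 ≤ B →
        ({x : Fin (n + 1) → ℤ | IsIntegralPoint w S x ∧ height w x ≤ B ∧ eval x Z ≠ 0 ∧
            truncatedCount S F x
              < (d - (∑ i, w i : ℕ) - δ) * Real.log (height w x) + c}.ncard : ℝ)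
          ≤ C * B ^ (-(2 * (∑ i, w i : ℕ) + δ - η - d - (∑ i with ¬ G i ∣ F, e i : ℕ)) : ℝ) *
            ({x : Fin (n + 1) → ℤ | IsIntegralPoint w S x ∧ height w x ≤ B}.ncard : ℝ) :=
  ws_main hn w hw S hS F hF d hFd G hGi e hG

end Pool.Agent.Results.MP_a41896_nt.WeightedStacks
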